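import Pool.Agent.BEL.StmtsE

/-!
# Squad BEL, row SOL (helper59): the limit is a solution in the sense of `CoreSol`
-/

namespace Pool.Agent.BEL.H59

open MeasureTheory Filter Topology Set
open scoped InnerProductSpace ENNReal NNReal

noncomputable section

theorem norm_sq_KK {H : Type} [NormedAddCommGroup H] [InnerProductSpace ℝ H] (z : KK H) :
    ‖z‖ ^ 2 = ‖P1 z‖ ^ 2 + ‖P2 z‖ ^ 2 := by
  rw [WithLp.prod_norm_sq_eq_of_L2]
  rfl

theorem norm_P1_le {H : Type} [NormedAddCommGroup H] [InnerProductSpace ℝ H] (z : KK H) :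
    ‖P1 z‖ ≤ ‖z‖ := by
  have h := norm_sq_KK z
  have h1 := norm_nonneg (P1 z)
  have h2 := norm_nonneg z
  nlinarith [sq_nonneg ‖P2 z‖]

theorem norm_P2_le {H : Type} [NormedAddCommGroup H] [InnerProductSpace ℝ H] (z : KK H) :
    ‖P2 z‖ ≤ ‖z‖ := by
  have h := norm_sq_KK z
  have h1 := norm_nonneg (P2 z)
  have h2 := norm_nonneg z
  nlinarith [sq_nonneg ‖P1 z‖]

theorem sol (hGrq : GrqStmt) (hFlp : FlpStmt) (hCoo : CooStmt) (hPrs : PrsStmt) (hGlp : GlpStmt)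
    (hNem : NemStmt) (hEni : EniStmt) (hGcv : GcvStmt) : SolStmt := by
  intro X _ μ _ a al b om W Z S ha hal hW hbd hlim V
  obtain ⟨hW0, -, hWn, -, hWc, hWZ, -, -⟩ := hGrq (Lp ℝ 2 μ) ℕ b om W hW
  obtain ⟨-, hgL, hgM, hg0, -⟩ := hGlp a al ha hal
  have hFL : ∀ n : ℕ, ∃ K : ℝ≥0, LipschitzWith K (nem μ (gl a al n)) := fun n =>
    ⟨_, (hNem X μ (gl a al n) _ (hgL n (Nat.cast_nonneg n)) (hg0 n)).2.1⟩
  have hFM : ∀ (n : ℕ) (x y : Lp ℝ 2 μ),
      0 ≤ ⟪nem μ (gl a al n) x - nem μ (gl a al n) y, x - y⟫_ℝ := fun n x y =>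
    (hNem X μ (gl a al n) _ (hgL n (Nat.cast_nonneg n))
      (hg0 n)).2.2.2.2.2 (hgM n (Nat.cast_nonneg n)) x y
  have hF0 : ∀ n : ℕ, nem μ (gl a al n) 0 = 0 := fun n =>
    (hNem X μ (gl a al n) _ (hgL n (Nat.cast_nonneg n)) (hg0 n)).2.2.1
  obtain ⟨hS0, hSc, -, -⟩ := hPrs (Lp ℝ 2 μ) ℕ b om W (fun n => nem μ (gl a al n)) Z S hW hFL
    hFM hF0 hlim
  have hflp : ∀ n : ℕ, (Continuous fun t => P2 (W t (Z n V t))) ∧
      (Continuous fun t => nem μ (gl a al n) (P2 (W t (Z n V t)))) ∧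
      (∀ s t, s ≤ t → ‖Z n V t‖ ≤ ‖Z n V s‖) := by
    intro n
    obtain ⟨K, hK⟩ := hFL n
    obtain ⟨h1, h2, h3, -, -⟩ := hFlp (Lp ℝ 2 μ) ℕ b om W (nem μ (gl a al n)) K hW hK (hFM n)
      (hF0 n) V V (Z n V) (Z n V) (hlim.fl n V) (hlim.fl n V)
    exact ⟨h1, h2, h3⟩
  have hZc : ∀ n : ℕ, Continuous (Z n V) := fun n =>
    continuous_iff_continuousAt.2 fun t => ((hlim.fl n V).eq t).continuousAt
  have hWZc : ∀ n : ℕ, Continuous fun t => W t (Z n V t) := fun n => hWZ _ (hZc n)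
  have hpt : ∀ t, 0 ≤ t → Tendsto (fun n => W t (Z n V t)) atTop (𝓝 (S t V)) := fun t ht =>
    (hlim.lim V t).tendsto_at ⟨ht, le_rfl⟩
  have hnorm : ∀ (n : ℕ) (t : ℝ), 0 ≤ t → ‖W t (Z n V t)‖ ≤ ‖V‖ := by
    intro n t ht
    rw [hWn]
    refine ((hflp n).2.2 0 t ht).trans ?_
    rw [(hlim.fl n V).z0]
  -- convergence of the integrals of the coordinates
  have hint : ∀ (k : ℕ) (P : KK (Lp ℝ 2 μ) →L[ℝ] Lp ℝ 2 μ), (∀ z, ‖P z‖ ≤ ‖z‖) → ∀ t, 0 ≤ t →
      Tendsto (fun n => ∫ r in (0 : ℝ)..t, ⟪b k, P (W r (Z n V r))⟫_ℝ) atTop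
        (𝓝 (∫ r in (0 : ℝ)..t, ⟪b k, P (S r V)⟫_ℝ)) := by
    intro k P hP t ht
    apply intervalIntegral.tendsto_integral_filter_of_dominated_convergence (fun _ => ‖V‖)
    · refine Eventually.of_forall fun n => ?_
      apply Continuous.aestronglyMeasurable
      exact continuous_const.inner (P.continuous.comp (hWZc n))
    · refine Eventually.of_forall fun n => ae_of_all _ fun r hr => ?_
      rw [uIoc_of_le ht] at hr
      refine (norm_inner_le_norm _ _).trans ?_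
      rw [b.orthonormal.1 k, one_mul]
      exact (hP _).trans (hnorm n r hr.1.le)
    · exact intervalIntegrable_const
    · refine ae_of_all _ fun r hr => ?_
      rw [uIoc_of_le ht] at hr
      have h1 := hpt r hr.1.le
      exact (tendsto_const_nhds.inner ((P.continuous.tendsto _).comp h1))
  have hcoo : ∀ (n k : ℕ) (t : ℝ),
      HasDerivAt (fun t => ⟪b k, P1 (W t (Z n V t))⟫_ℝ) (om k * ⟪b k, P2 (W t (Z n V t))⟫_ℝ) t ∧
      HasDerivAt (fun t => ⟪b k, P2 (W t (Z n V t))⟫_ℝ)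
        (-(om k) * ⟪b k, P1 (W t (Z n V t))⟫_ℝ -
          ⟪b k, nem μ (gl a al n) (P2 (W t (Z n V t)))⟫_ℝ) t := fun n k t =>
    hCoo (Lp ℝ 2 μ) ℕ b om W (nem μ (gl a al n)) V (Z n V) k t hW (hlim.fl n V)
  have hP1t : ∀ k t, 0 ≤ t → Tendsto (fun n => ⟪b k, P1 (W t (Z n V t))⟫_ℝ) atTop
      (𝓝 ⟪b k, P1 (S t V)⟫_ℝ) := fun k t ht =>
    tendsto_const_nhds.inner ((P1.continuous.tendsto _).comp (hpt t ht))
  have hP2t : ∀ k t, 0 ≤ t → Tendsto (fun n => ⟪b k, P2 (W t (Z n V t))⟫_ℝ) atTop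
      (𝓝 ⟪b k, P2 (S t V)⟫_ℝ) := fun k t ht =>
    tendsto_const_nhds.inner ((P2.continuous.tendsto _).comp (hpt t ht))
  have hgcv : ∀ k t, 0 ≤ t →
      IntervalIntegrable (fun r => ∫ x, gf a al (P2 (S r V) x) * b k x ∂μ) volume 0 t ∧
      Tendsto (fun n : ℕ => ∫ r in (0 : ℝ)..t,
        ⟪nem μ (gl a al n) (P2 (W r (Z n V r))), b k⟫_ℝ) atTop
        (𝓝 (∫ r in (0 : ℝ)..t, ∫ x, gf a al (P2 (S r V) x) * b k x ∂μ)) := by
    intro k t ht
    obtain ⟨B, hB⟩ := hbd k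
    exact hGcv X μ a al ℕ b om W Z S ha hal hW hlim V (b k) B t ht hB
  refine ⟨?_, ?_, ?_, ?_, ?_, ?_⟩
  · exact P1.continuous.comp_continuousOn (hSc V)
  · exact P2.continuous.comp_continuousOn (hSc V)
  · intro s t hs hst
    have h1 := hEni X μ a al ℕ b om W Z S ha hal hW hlim V s t hs hst
    have h2 : ∀ t, enr μ (fun t => P1 (S t V)) (fun t => P2 (S t V)) t = ‖S t V‖ ^ 2 := fun t =>
      (norm_sq_KK (S t V)).symm
    rw [h2, h2]
    exact h1
  · intro k t ht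
    exact (hgcv k t ht).1
  · intro k t ht
    have h1 : ∀ n, ⟪b k, P1 (W t (Z n V t))⟫_ℝ - ⟪b k, P1 (W 0 (Z n V 0))⟫_ℝ =
        om k * ∫ r in (0 : ℝ)..t, ⟪b k, P2 (W r (Z n V r))⟫_ℝ := by
      intro n
      rw [← intervalIntegral.integral_const_mul]
      symm
      apply intervalIntegral.integral_eq_sub_of_hasDerivAt (fun r _ => (hcoo n k r).1)
      apply Continuous.intervalIntegrable
      exact continuous_const.mul (continuous_const.inner (hflp n).1)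
    have h2 := (hP1t k t ht).sub (hP1t k 0 le_rfl)
    have h3 := (hint k P2 norm_P2_le t ht).const_mul (om k)
    simp only [h1] at h2
    have h4 := tendsto_nhds_unique h2 h3
    linarith
  · intro k t ht
    have h1 : ∀ n : ℕ, ⟪b k, P2 (W t (Z n V t))⟫_ℝ - ⟪b k, P2 (W 0 (Z n V 0))⟫_ℝ =
        -(om k) * (∫ r in (0 : ℝ)..t, ⟪b k, P1 (W r (Z n V r))⟫_ℝ) -
          ∫ r in (0 : ℝ)..t, ⟪nem μ (gl a al n) (P2 (W r (Z n V r))), b k⟫_ℝ := by
      intro n
      have hc1 : Continuous fun r => -(om k) * ⟪b k, P1 (W r (Z n V r))⟫_ℝ :=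
        continuous_const.mul (continuous_const.inner (P1.continuous.comp (hWZc n)))
      have hc2 : Continuous fun r => ⟪b k, nem μ (gl a al n) (P2 (W r (Z n V r)))⟫_ℝ :=
        continuous_const.inner (hflp n).2.1
      have h5 : (fun r => ⟪nem μ (gl a al n) (P2 (W r (Z n V r))), b k⟫_ℝ) =
          fun r => ⟪b k, nem μ (gl a al n) (P2 (W r (Z n V r)))⟫_ℝ := by
        funext r
        exact real_inner_comm _ _
      rw [h5, ← intervalIntegral.integral_const_mul,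
        ← intervalIntegral.integral_sub (hc1.intervalIntegrable _ _)
          (hc2.intervalIntegrable _ _)]
      symm
      apply intervalIntegral.integral_eq_sub_of_hasDerivAt (fun r _ => (hcoo n k r).2)
      exact (hc1.sub hc2).intervalIntegrable _ _
    have h2 := (hP2t k t ht).sub (hP2t k 0 le_rfl)
    have h3 := ((hint k P1 norm_P1_le t ht).const_mul (-(om k))).sub (hgcv k t ht).2
    simp only [h1] at h2
    have h4 := tendsto_nhds_unique h2 h3
    have hci : IntervalIntegrable (fun s => om k * ⟪b k, P1 (S s V)⟫_ℝ) volume 0 t := by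
      apply ContinuousOn.intervalIntegrable
      rw [uIcc_of_le ht]
      apply ContinuousOn.mul continuousOn_const
      exact continuousOn_const.inner
        ((P1.continuous.comp_continuousOn (hSc V)).mono Icc_subset_Ici_self)
    have h6 : ∫ s in (0:ℝ)..t, (om k * ⟪b k, P1 (S s V)⟫_ℝ +
        ∫ x, gf a al (P2 (S s V) x) * b k x ∂μ) =
        om k * (∫ s in (0:ℝ)..t, ⟪b k, P1 (S s V)⟫_ℝ) +
          ∫ s in (0:ℝ)..t, ∫ x, gf a al (P2 (S s V) x) * b k x ∂μ := by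
      rw [intervalIntegral.integral_add hci (hgcv k t ht).1, intervalIntegral.integral_const_mul]
    rw [h6]
    linarith

end

end Pool.Agent.BEL.H59
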